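import Pool.Agent.helper16.EXT.Spec3T

/-!
# Row `ft3:IKS` (MP_561ff4_al)

The scalar of an exchanged pair of long root points.
-/

set_option autoImplicit false

open Finset

namespace Pool.Agent.EXT

open Pool.Agent.EXC

theorem IKS (hESF : ESF_stmt) (hGFX : GFX_stmt) (hUNF : UNF_stmt) : IKS_stmt := by
  intro K _ τ hτ x σ a b κ c d ha hb hab hκ0 hc hd hx1 hx2
  obtain ⟨-, es⟩ := hESF K τ hτ
  obtain ⟨gf1, gf2⟩ := hGFX K τ hτ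
  obtain ⟨-, -, e3, -⟩ := f_EXF 6 C6 K (f_NBR 6 C6 1 th ![0, 2, 3, 4, 5] f_DE6.2).1
  obtain ⟨hEa, -, -, hga, -, hka, -, -⟩ := es a ha
  obtain ⟨hEb, -, -, hgb, -, hkb, -, -⟩ := es b hb
  have hXa : Xtr C6 a := (e3 a hEa).1
  have hXb : Xtr C6 b := (e3 b hEb).1
  obtain ⟨-, -, hsym, hanti, -⟩ := f_INV 6 C6 K
  have hκK : (κ : K) ≠ 0 := fun h => hκ0 (Subtype.ext h)
  have hcK : (c : K) ≠ 0 := fun h => hc (Subtype.ext h)
  have hdK : (d : K) ≠ 0 := fun h => hd (Subtype.ext h)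
  have hv : τ (-(κ : K)⁻¹) = -(κ : K)⁻¹ := by rw [map_neg, map_inv₀, K0_fix]
  -- a fixed element of a root group, as an element of the two groups
  have pa : ∀ t : K, τ t = t → ∃ g ∈ GS τ, IsX C6 a t g ∧ ∃ f : GF τ, IsF τ a t (f : Equiv.Perm (LT τ)) ∧
      ∀ v : LT τ, ((f : Equiv.Perm (LT τ)) v : Lm C6 K) = g v := by
    intro t ht
    obtain ⟨g, hg, hX⟩ := hka t ht
    obtain ⟨f, hf, hfv⟩ := gf1 g hg
    exact ⟨g, hg, hX, ⟨f, hf⟩, fun v => by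
      change (f v : Lm C6 K) = _
      rw [hfv v, hX], hfv⟩
  have pb : ∀ t : K, τ t = t → ∃ g ∈ GS τ, IsX C6 b t g ∧ ∃ f : GF τ, IsF τ b t (f : Equiv.Perm (LT τ)) ∧
      ∀ v : LT τ, ((f : Equiv.Perm (LT τ)) v : Lm C6 K) = g v := by
    intro t ht
    obtain ⟨g, hg, hX⟩ := hkb t ht
    obtain ⟨f, hf, hfv⟩ := gf1 g hg
    exact ⟨g, hg, hX, ⟨f, hf⟩, fun v => by
      change (f v : Lm C6 K) = _
      rw [hfv v, hX], hfv⟩
  obtain ⟨A1, hA1m, hA1, gA1, fA1, eA1⟩ := pa 1 (map_one τ)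
  obtain ⟨B1, hB1m, hB1, gB1, fB1, eB1⟩ := pb 1 (map_one τ)
  obtain ⟨Bv, hBvm, hBv, gBv, fBv, eBv⟩ := pb (-(κ : K)⁻¹) hv
  obtain ⟨Aκ, hAκm, hAκ, gAκ, fAκ, eAκ⟩ := pa (κ : K) (K0_fix τ κ)
  have hba : fm C6 b a = (κ : K) := by rw [hsym b a, hab]
  have hbrba : br C6 b a = -br C6 a b := hanti b a
  -- e = κ e'
  have he : A1 b = (κ : K) • Bv a := by
    rw [hA1 b, hBv a, xe, xe, hba, hbrba, ← hab]
    have h2 : (κ : K) * (κ : K)⁻¹ = 1 := mul_inv_cancel₀ hκK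
    simp only [smul_add, smul_smul, smul_neg, neg_smul, neg_neg]
    have e1 : (κ : K) * ((-(κ : K)⁻¹) ^ 2 * (κ : K)) = 1 := by
      have : (κ : K) * ((-(κ : K)⁻¹) ^ 2 * (κ : K)) = ((κ : K) * (κ : K)⁻¹) * ((κ : K) * (κ : K)⁻¹) := by ring
      rw [this, h2, one_mul]
    rw [e1, h2]
    simp only [one_pow, one_mul, one_smul]
    abel
  -- the relation
  have h1 : IsF τ (A1 b) 1 ((gA1 : Equiv.Perm (LT τ)) * (gB1 : Equiv.Perm (LT τ)) * (gA1 : Equiv.Perm (LT τ))⁻¹) :=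
    (gf2 b hb).2.2.2.2 gA1 gA1.2 A1 hA1m eA1 1 gB1 fB1
  have h2 : IsF τ (Bv a) (κ : K) ((gBv : Equiv.Perm (LT τ)) * (gAκ : Equiv.Perm (LT τ)) * (gBv : Equiv.Perm (LT τ))⁻¹) :=
    (gf2 a ha).2.2.2.2 gBv gBv.2 Bv hBvm eBv (κ : K) gAκ fAκ
  have hXBa : Xtr C6 (Bv a) := (e3 _ (es _ (hga Bv hBvm)).1).1
  have heqg : gA1 * gB1 * gA1⁻¹ = gBv * gAκ * gBv⁻¹ := by
    refine Subtype.ext (Equiv.ext fun v => Subtype.ext ?_)
    refine (h1 v).trans (Eq.trans ?_ (h2 v).symm)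
    rw [he, ((f_XAU 6 C6 K (Bv a) hXBa).2.2.2 (κ : K)).2 1 v, mul_one]
  have heqx : x gA1 * x gB1 * (x gA1)⁻¹ = x gBv * x gAκ * (x gBv)⁻¹ := by
    have := congrArg x heqg
    simpa only [map_mul, map_inv] using this
  -- images
  have i1 : IsF τ b (c : K) ((x gA1 : GF τ) : Equiv.Perm (LT τ)) := by
    have := hx1 1 gA1 fA1
    rwa [map_one, mul_one] at this
  have i2 : IsF τ a (d : K) ((x gB1 : GF τ) : Equiv.Perm (LT τ)) := by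
    have := hx2 1 gB1 fB1
    rwa [map_one, mul_one] at this
  have i3 : IsF τ a ((d * σ (-κ⁻¹) : K0 τ) : K) ((x gBv : GF τ) : Equiv.Perm (LT τ)) := hx2 (-κ⁻¹) gBv fBv
  have i4 : IsF τ b ((c * σ κ : K0 τ) : K) ((x gAκ : GF τ) : Equiv.Perm (LT τ)) := hx1 κ gAκ fAκ
  obtain ⟨G1, hG1m, hG1⟩ := hkb (c : K) (K0_fix τ c)
  obtain ⟨G2, hG2m, hG2⟩ := hka ((d * σ (-κ⁻¹) : K0 τ) : K) (K0_fix τ _)
  have j1 : IsF τ (G1 a) (d : K) (((x gA1 * x gB1 * (x gA1)⁻¹ : GF τ)) : Equiv.Perm (LT τ)) :=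
    (gf2 a ha).2.2.2.2 (x gA1) (x gA1).2 G1 hG1m (fun v => by rw [i1 v, hG1]) (d : K) _ i2
  have j2 : IsF τ (G2 b) ((c * σ κ : K0 τ) : K) (((x gBv * x gAκ * (x gBv)⁻¹ : GF τ)) : Equiv.Perm (LT τ)) :=
    (gf2 b hb).2.2.2.2 (x gBv) (x gBv).2 G2 hG2m (fun v => by rw [i3 v, hG2]) _ _ i4
  rw [← heqx] at j2
  have hExG1 : ExS τ (G1 a) := hga G1 hG1m
  have hExG2 : ExS τ (G2 b) := hgb G2 hG2m
  have hExd : ExS τ ((d : K) • G1 a) := (es _ hExG1).2.2.2.2.1 (d : K) (K0_fix τ d) hdK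
  have j1' : IsF τ ((d : K) • G1 a) 1 (((x gA1 * x gB1 * (x gA1)⁻¹ : GF τ)) : Equiv.Perm (LT τ)) := by
    intro v
    rw [((f_XAU 6 C6 K (G1 a) (e3 _ (es _ hExG1).1).1).2.2.2 (d : K)).2 1 v, mul_one]
    exact j1 v
  have key : (d : K) • G1 a = ((c * σ κ : K0 τ) : K) • G2 b :=
    hUNF K τ hτ ((d : K) • G1 a) (G2 b) ((c * σ κ : K0 τ) : K) _ hExd hExG2 j1' j2
  -- apply the form with a
  have hfaa : fm C6 a a = 0 := hXa.ff
  have hfab : fm C6 a (br C6 a b) = 0 := by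
    have h3 := hXa.inv a b
    rw [hXa.aa, fm_zero_left] at h3
    exact neg_eq_zero.1 h3.symm
  have k1 : fm C6 a (G1 a) = (c : K) ^ 2 * κ * κ := by
    rw [hG1 a, xe, fm_add_right, fm_add_right, fm_smul_right, fm_smul_right, hfaa, hba, hbrba, fm_neg_right, hfab, ← hab]
    ring
  have k2 : fm C6 a (G2 b) = (κ : K) := by
    rw [hG2 b, xe, fm_add_right, fm_add_right, fm_smul_right, fm_smul_right, hfab, hfaa, ← hab]
    ring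
  have k3 := congrArg (fm C6 a) key
  rw [fm_smul_right, fm_smul_right, k1, k2] at k3
  have k5 : (d : K) * ((c : K) ^ 2 * κ * κ) = (c : K) * ((σ κ : K0 τ) : K) * κ := k3
  have k4 : (c : K) * (κ : K) * ((σ κ : K0 τ) : K) = (c : K) * (κ : K) * ((κ : K) * c * d) := by
    linear_combination -k5
  exact Subtype.ext (mul_left_cancel₀ (mul_ne_zero hcK hκK) k4)

end Pool.Agent.EXT
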